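import Pool.Agent.H30.BV.Targets

/-!
Module BL of the board bv_modules: Brun-Hooley sieve, lower bound.
-/

set_option autoImplicit false

open Finset Real ArithmeticFunction
open scoped Nat

namespace Pool.Agent.H29.BV

open Pool.Agent.H30.BV

/-- product with one factor replaced -/
theorem bl_prod {t l : ℕ} (hl : l ∈ range t) (y z : ℕ → ℝ) :
    ∏ j ∈ range t, (if j = l then z j else y j) = z l * ∏ j ∈ (range t).erase l, y j := by
  rw [← Finset.mul_prod_erase _ _ hl, if_pos rfl]
  congr 1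
  refine Finset.prod_congr rfl fun j hj => ?_
  rw [if_neg (Finset.ne_of_mem_erase hj)]

theorem bl (hPW : T_PW) (hTE : T_TE) (hXP : T_XP) (hYV : T_YV) (hES : T_ES) : T_BL := by
  classical
  intro Ω P w dv lev b t g Z hw hZ hg hlev
  set E := Er Ω w dv g Z P lev b t with hE
  have hE0 : 0 ≤ E := Finset.sum_nonneg fun _ _ => abs_nonneg _
  have hSf0 : 0 ≤ Sf Ω w dv P := Finset.sum_nonneg fun n hn => hw n (Finset.mem_filter.1 hn).1
  -- levels of P
  set Pj : ℕ → Finset ℕ := fun j => P.filter (fun p => lev p = j) with hPj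
  set V : ℕ → ℝ := fun j => ∏ p ∈ Pj j, (1 - g p) with hV
  set Y : ℕ → ℝ := fun j => ∑ s ∈ (Pj j).powerset,
    (if s.card ≤ 2 * b j then (-1 : ℝ) ^ s.card else 0) * ∏ p ∈ s, g p with hY
  set F : ℕ → ℝ := fun j => ∑ s ∈ (Pj j).powerset,
    (if s.card = 2 * b j + 1 then (1 : ℝ) else 0) * ∏ p ∈ s, g p with hF
  have hPjsub : ∀ j, ∀ p ∈ Pj j, 0 ≤ g p ∧ g p < 1 := fun j p hp =>
    hg p (Finset.mem_filter.1 hp).1
  have hVpos : ∀ j, 0 < V j := fun j => (hYV (Pj j) g (b j) (hPjsub j)).1
  have hVY : ∀ j, V j ≤ Y j := fun j => (hYV (Pj j) g (b j) (hPjsub j)).2.1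
  have hYpos : ∀ j, 0 < Y j := fun j => (hVpos j).trans_le (hVY j)
  have hF0 : ∀ j, 0 ≤ F j := by
    intro j
    refine Finset.sum_nonneg fun s hs => mul_nonneg ?_ ?_
    · split_ifs <;> norm_num
    · exact Finset.prod_nonneg fun p hp => (hPjsub j p (Finset.mem_powerset.1 hs hp)).1
  have hFq : ∀ j, F j ≤ qj P lev g j (b j) * V j := by
    intro j
    have h1 := hES (Pj j) g (2 * b j + 1) (fun p hp => (hPjsub j p hp).1)
    have h2 : qj P lev g j (b j) * V j =
        (∑ p ∈ Pj j, g p) ^ (2 * b j + 1) / (2 * b j + 1)! := by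
      have hv := (hVpos j).ne'
      have hfac : (((2 * b j + 1)! : ℕ) : ℝ) ≠ 0 := by
        exact_mod_cast Nat.factorial_ne_zero _
      simp only [qj]
      change (∑ p ∈ Pj j, g p) ^ (2 * b j + 1) / (((2 * b j + 1)! : ℕ) * V j) * V j = _
      field_simp
    rw [h2]
    exact h1
  have hVprod : ∏ p ∈ P, (1 - g p) = ∏ j ∈ range t, V j := by
    rw [← Finset.prod_fiberwise_of_maps_to (s := P) (t := range t) (g := lev)
      (fun p hp => Finset.mem_range.2 (hlev p hp))]
  -- values at n
  set T : ℕ → ℕ → Finset ℕ := fun n j => P.filter (fun p => lev p = j ∧ dv p n) with hT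
  set x : ℕ → ℕ → ℝ := fun n j => if T n j = ∅ then 1 else 0 with hx
  set y : ℕ → ℕ → ℝ := fun n j => ∑ s ∈ (T n j).powerset,
    (if s.card ≤ 2 * b j then (-1 : ℝ) ^ s.card else 0) with hy
  set z : ℕ → ℕ → ℝ := fun n j => ∑ s ∈ (T n j).powerset,
    (if s.card = 2 * b j + 1 then (1 : ℝ) else 0) with hz
  have hx0 : ∀ n j, 0 ≤ x n j := by
    intro n j
    simp only [hx]
    split_ifs <;> norm_num
  have hxy : ∀ n j, x n j ≤ y n j := fun n j => (hPW (T n j) (b j)).1
  have hyx : ∀ n j, y n j ≤ x n j + z n j := fun n j => (hPW (T n j) (b j)).2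
  have hy0 : ∀ n j, 0 ≤ y n j := fun n j => (hx0 n j).trans (hxy n j)
  have hte : ∀ n, ∏ j ∈ range t, y n j - ∑ l ∈ range t, z n l * ∏ j ∈ (range t).erase l, y n j ≤
      ∏ j ∈ range t, x n j := by
    intro n
    refine le_trans ?_ (hTE t (x n) (y n) (fun j _ => ⟨hx0 n j, hxy n j⟩))
    apply sub_le_sub_left
    refine Finset.sum_le_sum fun l _ => ?_
    apply mul_le_mul_of_nonneg_right
    · have := hyx n l
      linarith
    · exact Finset.prod_nonneg fun j _ => hy0 n j
  -- the sifted sum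
  have hsf : Sf Ω w dv P = ∑ n ∈ Ω, w n * ∏ j ∈ range t, x n j := by
    unfold Sf
    rw [Finset.sum_filter]
    refine Finset.sum_congr rfl fun n _ => ?_
    split_ifs with h
    · have : ∏ j ∈ range t, x n j = 1 := by
        refine Finset.prod_eq_one fun j _ => ?_
        simp only [hx]
        rw [if_pos]
        simp only [hT]
        rw [Finset.filter_eq_empty_iff]
        rintro p hp ⟨-, hd⟩
        exact h p hp hd
      rw [this, mul_one]
    · push Not at h
      obtain ⟨p, hp, hd⟩ := h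
      have : ∏ j ∈ range t, x n j = 0 := by
        apply Finset.prod_eq_zero (Finset.mem_range.2 (hlev p hp))
        simp only [hx]
        rw [if_neg]
        intro h0
        have : p ∈ T n (lev p) := Finset.mem_filter.2 ⟨hp, rfl, hd⟩
        rw [h0] at this
        exact absurd this (Finset.notMem_empty _)
      rw [this, mul_zero]
  -- the main term
  have hc1 : ∀ j k : ℕ, |(if k ≤ 2 * b j then (-1 : ℝ) ^ k else 0)| ≤ 1 := by
    intro j k
    split_ifs
    · rw [abs_pow, abs_neg, abs_one, one_pow]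
    · rw [abs_zero]; exact zero_le_one
  have hmain : Z * ∏ j ∈ range t, Y j - E ≤ ∑ n ∈ Ω, w n * ∏ j ∈ range t, y n j := by
    have h := hXP Ω P w dv lev b t g Z (fun j k => if k ≤ 2 * b j then (-1 : ℝ) ^ k else 0) hc1
      (fun j k hk => if_neg (by omega)) hlev
    have h' := (abs_le.1 h).1
    simp only [hE, hY, hy, hT, hPj]
    linarith
  have herr : ∀ l ∈ range t, ∑ n ∈ Ω, w n * (z n l * ∏ j ∈ (range t).erase l, y n j) ≤
      Z * (F l * ∏ j ∈ (range t).erase l, Y j) + E := by
    intro l hl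
    have h := hXP Ω P w dv lev b t g Z (fun j k => if j = l then
      (if k = 2 * b j + 1 then (1 : ℝ) else 0) else (if k ≤ 2 * b j then (-1 : ℝ) ^ k else 0))
      (fun j k => by
        split_ifs
        · rw [abs_one]
        · rw [abs_zero]; exact zero_le_one
        · rw [abs_pow, abs_neg, abs_one, one_pow]
        · rw [abs_zero]; exact zero_le_one)
      (fun j k hk => by
        split_ifs
        · omega
        · rfl
        · omega
        · rfl) hlev
    have h' := (abs_le.1 h).2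
    have e1 : ∀ n, ∏ j ∈ range t, ∑ s ∈ (P.filter (fun p => lev p = j ∧ dv p n)).powerset,
        (if j = l then (if s.card = 2 * b j + 1 then (1 : ℝ) else 0) else
          (if s.card ≤ 2 * b j then (-1 : ℝ) ^ s.card else 0)) =
        z n l * ∏ j ∈ (range t).erase l, y n j := by
      intro n
      rw [← bl_prod hl (y n) (z n)]
      refine Finset.prod_congr rfl fun j _ => ?_
      by_cases hjl : j = l
      · simp only [if_pos hjl, hz, hT]
      · simp only [if_neg hjl, hy, hT]
    have e2 : ∏ j ∈ range t, ∑ s ∈ (P.filter (fun p => lev p = j)).powerset,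
        (if j = l then (if s.card = 2 * b j + 1 then (1 : ℝ) else 0) else
          (if s.card ≤ 2 * b j then (-1 : ℝ) ^ s.card else 0)) * ∏ p ∈ s, g p =
        F l * ∏ j ∈ (range t).erase l, Y j := by
      rw [← bl_prod hl Y F]
      refine Finset.prod_congr rfl fun j _ => ?_
      by_cases hjl : j = l
      · simp only [if_pos hjl, hF, hPj]
      · simp only [if_neg hjl, hY, hPj]
    rw [e2] at h'
    have e3 : ∑ n ∈ Ω, w n * ∏ j ∈ range t,
        ∑ s ∈ (P.filter (fun p => lev p = j ∧ dv p n)).powerset,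
        (if j = l then (if s.card = 2 * b j + 1 then (1 : ℝ) else 0) else
          (if s.card ≤ 2 * b j then (-1 : ℝ) ^ s.card else 0)) =
        ∑ n ∈ Ω, w n * (z n l * ∏ j ∈ (range t).erase l, y n j) :=
      Finset.sum_congr rfl fun n _ => by rw [e1 n]
    have h'' : ∑ n ∈ Ω, w n * (z n l * ∏ j ∈ (range t).erase l, y n j) -
        Z * (F l * ∏ j ∈ (range t).erase l, Y j) ≤ E := by
      rw [← e3]
      exact h'
    linarith
  -- combination
  have hcomb : Z * (∏ j ∈ range t, Y j - ∑ l ∈ range t, F l * ∏ j ∈ (range t).erase l, Y j) -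
      (t + 1) * E ≤ Sf Ω w dv P := by
    rw [hsf]
    have h1 : ∑ n ∈ Ω, w n * (∏ j ∈ range t, y n j -
        ∑ l ∈ range t, z n l * ∏ j ∈ (range t).erase l, y n j) ≤
        ∑ n ∈ Ω, w n * ∏ j ∈ range t, x n j :=
      Finset.sum_le_sum fun n hn => mul_le_mul_of_nonneg_left (hte n) (hw n hn)
    refine le_trans ?_ h1
    have h2 : ∑ n ∈ Ω, w n * (∏ j ∈ range t, y n j -
        ∑ l ∈ range t, z n l * ∏ j ∈ (range t).erase l, y n j) =
        ∑ n ∈ Ω, w n * ∏ j ∈ range t, y n j -
          ∑ l ∈ range t, ∑ n ∈ Ω, w n * (z n l * ∏ j ∈ (range t).erase l, y n j) := by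
      rw [Finset.sum_comm, ← Finset.sum_sub_distrib]
      refine Finset.sum_congr rfl fun n _ => ?_
      rw [mul_sub, Finset.mul_sum]
    rw [h2]
    have h3 : ∑ l ∈ range t, ∑ n ∈ Ω, w n * (z n l * ∏ j ∈ (range t).erase l, y n j) ≤
        ∑ l ∈ range t, (Z * (F l * ∏ j ∈ (range t).erase l, Y j) + E) :=
      Finset.sum_le_sum herr
    rw [Finset.sum_add_distrib, ← Finset.mul_sum, Finset.sum_const, Finset.card_range,
      nsmul_eq_mul] at h3
    linarith
  -- conclusion
  rw [hVprod]
  rcases le_or_gt (1 - ∑ j ∈ range t, qj P lev g j (b j)) 0 with hq | hq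
  · have h1 : 0 ≤ Z * ∏ j ∈ range t, V j :=
      mul_nonneg hZ (Finset.prod_nonneg fun j _ => (hVpos j).le)
    have h2 : Z * (∏ j ∈ range t, V j) * (1 - ∑ j ∈ range t, qj P lev g j (b j)) ≤ 0 :=
      mul_nonpos_of_nonneg_of_nonpos h1 hq
    have h3 : 0 ≤ ((t : ℝ) + 1) * E := by positivity
    linarith
  · refine le_trans ?_ hcomb
    apply sub_le_sub_right
    rw [mul_assoc]
    apply mul_le_mul_of_nonneg_left _ hZ
    have hYprod : 0 < ∏ j ∈ range t, Y j := Finset.prod_pos fun j _ => hYpos j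
    have h4 : ∀ l ∈ range t, F l * ∏ j ∈ (range t).erase l, Y j ≤
        qj P lev g l (b l) * ∏ j ∈ range t, Y j := by
      intro l hl
      rw [← Finset.mul_prod_erase _ Y hl, ← mul_assoc]
      apply mul_le_mul_of_nonneg_right _ (Finset.prod_nonneg fun j _ => (hYpos j).le)
      have hq0 : 0 ≤ qj P lev g l (b l) := by
        by_contra hneg
        push Not at hneg
        have := hFq l
        have h5 := hF0 l
        nlinarith [hVpos l]
      exact (hFq l).trans (mul_le_mul_of_nonneg_left (hVY l) hq0)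
    have h5 := Finset.sum_le_sum h4
    rw [← Finset.sum_mul] at h5
    have h6 : ∏ j ∈ range t, V j ≤ ∏ j ∈ range t, Y j :=
      Finset.prod_le_prod (fun j _ => (hVpos j).le) (fun j _ => hVY j)
    calc (∏ j ∈ range t, V j) * (1 - ∑ j ∈ range t, qj P lev g j (b j))
        ≤ (∏ j ∈ range t, Y j) * (1 - ∑ j ∈ range t, qj P lev g j (b j)) :=
          mul_le_mul_of_nonneg_right h6 hq.le
      _ ≤ _ := by linarith

end Pool.Agent.H29.BV
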