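import Pool.Agent.H30.BV.Targets

/-!
Module XP of the board bv_modules: expansion over the levels.
-/

set_option autoImplicit false

open Finset Real ArithmeticFunction
open scoped Nat

namespace Pool.Agent.H29.BV

open Pool.Agent.H30.BV

/-- expansion of a product over the levels into a sum over all subsets -/
theorem xp_expand (lev : ℕ → ℕ) (c : ℕ → ℕ → ℝ) (h : ℕ → ℝ) (t : ℕ) :
    ∀ Q : Finset ℕ, (∀ p ∈ Q, lev p < t) →
    ∏ j ∈ range t, ∑ s ∈ (Q.filter (fun p => lev p = j)).powerset, c j s.card * ∏ p ∈ s, h p =
      ∑ s ∈ Q.powerset, (∏ j ∈ range t, c j (s.filter (fun p => lev p = j)).card) *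
        ∏ p ∈ s, h p := by
  induction t with
  | zero =>
    intro Q hQ
    have : Q = ∅ := by
      rw [Finset.eq_empty_iff_forall_notMem]
      intro p hp
      exact absurd (hQ p hp) (Nat.not_lt_zero _)
    subst this
    simp
  | succ t ih =>
    intro Q hQ
    set Q₁ := Q.filter (fun p => lev p < t) with hQ₁
    set Q₂ := Q.filter (fun p => lev p = t) with hQ₂
    rw [Finset.prod_range_succ]
    have h1 : ∀ j ∈ range t, Q.filter (fun p => lev p = j) = Q₁.filter (fun p => lev p = j) := by
      intro j hj
      have hj' := Finset.mem_range.1 hj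
      ext p
      simp only [hQ₁, Finset.mem_filter]
      constructor
      · rintro ⟨ha, hb⟩
        exact ⟨⟨ha, by omega⟩, hb⟩
      · rintro ⟨⟨ha, -⟩, hb⟩
        exact ⟨ha, hb⟩
    have h2 : ∏ j ∈ range t, ∑ s ∈ (Q.filter (fun p => lev p = j)).powerset,
        c j s.card * ∏ p ∈ s, h p = ∏ j ∈ range t,
          ∑ s ∈ (Q₁.filter (fun p => lev p = j)).powerset, c j s.card * ∏ p ∈ s, h p := by
      refine Finset.prod_congr rfl fun j hj => ?_
      rw [h1 j hj]
    rw [h2, ih Q₁ (fun p hp => (Finset.mem_filter.1 hp).2), Finset.sum_mul_sum,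
      ← Finset.sum_product']
    refine Finset.sum_nbij' (fun x => x.1 ∪ x.2)
      (fun s => (s.filter (fun p => lev p < t), s.filter (fun p => lev p = t))) ?_ ?_ ?_ ?_ ?_
    · rintro ⟨a, b⟩ hab
      simp only [Finset.mem_product, Finset.mem_powerset] at hab ⊢
      exact Finset.union_subset (hab.1.trans (Finset.filter_subset _ _))
        (hab.2.trans (Finset.filter_subset _ _))
    · intro s hs
      simp only [Finset.mem_product, Finset.mem_powerset] at hs ⊢
      exact ⟨Finset.filter_subset_filter _ hs, Finset.filter_subset_filter _ hs⟩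
    · rintro ⟨a, b⟩ hab
      simp only [Finset.mem_product, Finset.mem_powerset] at hab
      obtain ⟨ha, hb⟩ := hab
      simp only [Prod.mk.injEq]
      constructor
      · ext p
        simp only [Finset.mem_filter, Finset.mem_union]
        constructor
        · rintro ⟨h | h, hl⟩
          · exact h
          · have := (Finset.mem_filter.1 (hb h)).2
            omega
        · intro h
          exact ⟨Or.inl h, (Finset.mem_filter.1 (ha h)).2⟩
      · ext p
        simp only [Finset.mem_filter, Finset.mem_union]
        constructor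
        · rintro ⟨h | h, hl⟩
          · have := (Finset.mem_filter.1 (ha h)).2
            omega
          · exact h
        · intro h
          exact ⟨Or.inr h, (Finset.mem_filter.1 (hb h)).2⟩
    · intro s hs
      rw [Finset.mem_powerset] at hs
      ext p
      simp only [Finset.mem_union, Finset.mem_filter]
      constructor
      · rintro (h | h) <;> exact h.1
      · intro h
        have := hQ p (hs h)
        rcases Nat.lt_succ_iff_lt_or_eq.1 this with h' | h'
        · exact Or.inl ⟨h, h'⟩
        · exact Or.inr ⟨h, h'⟩
    · rintro ⟨a, b⟩ hab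
      simp only [Finset.mem_product, Finset.mem_powerset] at hab
      obtain ⟨ha, hb⟩ := hab
      have hdisj : Disjoint a b := by
        rw [Finset.disjoint_left]
        intro p hpa hpb
        have e1 := (Finset.mem_filter.1 (ha hpa)).2
        have e2 := (Finset.mem_filter.1 (hb hpb)).2
        omega
      have e3 : ∏ j ∈ range t, c j ((a ∪ b).filter (fun p => lev p = j)).card =
          ∏ j ∈ range t, c j (a.filter (fun p => lev p = j)).card := by
        refine Finset.prod_congr rfl fun j hj => ?_
        have hj' := Finset.mem_range.1 hj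
        congr 2
        ext p
        simp only [Finset.mem_filter, Finset.mem_union]
        constructor
        · rintro ⟨h | h, hl⟩
          · exact ⟨h, hl⟩
          · have := (Finset.mem_filter.1 (hb h)).2
            omega
        · rintro ⟨h, hl⟩
          exact ⟨Or.inl h, hl⟩
      have e4 : (a ∪ b).filter (fun p => lev p = t) = b := by
        ext p
        simp only [Finset.mem_filter, Finset.mem_union]
        constructor
        · rintro ⟨h | h, hl⟩
          · have := (Finset.mem_filter.1 (ha h)).2
            omega
          · exact h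
        · intro h
          exact ⟨Or.inr h, (Finset.mem_filter.1 (hb h)).2⟩
      simp only
      rw [Finset.prod_range_succ, e3, e4, Finset.prod_union hdisj]
      ring

theorem xp : T_XP := by
  classical
  intro Ω P w dv lev b t g Z c hc1 hc0 hlev
  set C : Finset ℕ → ℝ := fun s => ∏ j ∈ range t, c j (s.filter (fun p => lev p = j)).card with hC
  have hCle : ∀ s, |C s| ≤ 1 := by
    intro s
    rw [hC]
    simp only
    rw [Finset.abs_prod]
    exact Finset.prod_le_one (fun _ _ => abs_nonneg _) (fun j _ => hc1 j _)
  have hC0 : ∀ s ∈ P.powerset, s ∉ Sad P lev b t → C s = 0 := by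
    intro s hs hns
    simp only [Sad, Finset.mem_filter, not_and, not_forall] at hns
    obtain ⟨j, hj, hlt⟩ := hns hs
    push Not at hlt
    exact Finset.prod_eq_zero hj (hc0 j _ hlt)
  -- first sum
  have h1 : ∀ n, ∏ j ∈ range t, ∑ s ∈ (P.filter (fun p => lev p = j ∧ dv p n)).powerset,
      c j s.card = ∑ s ∈ (P.filter (fun p => dv p n)).powerset, C s := by
    intro n
    have h2 := xp_expand lev c (fun _ => 1) t (P.filter (fun p => dv p n))
      (fun p hp => hlev p (Finset.mem_filter.1 hp).1)
    simp only [Finset.prod_const_one, mul_one] at h2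
    rw [hC, ← h2]
    refine Finset.prod_congr rfl fun j _ => ?_
    have h3 : P.filter (fun p => lev p = j ∧ dv p n) =
        (P.filter (fun p => dv p n)).filter (fun p => lev p = j) := by
      ext p
      simp only [Finset.mem_filter]
      tauto
    rw [h3]
  have h4 : ∑ n ∈ Ω, w n * ∏ j ∈ range t,
      ∑ s ∈ (P.filter (fun p => lev p = j ∧ dv p n)).powerset, c j s.card =
      ∑ s ∈ P.powerset, C s * As Ω w dv s := by
    simp only [h1, Finset.mul_sum, As]
    rw [Finset.sum_comm' (t' := P.powerset) (s' := fun s => Ω.filter (fun n => ∀ p ∈ s, dv p n))]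
    · refine Finset.sum_congr rfl fun s _ => Finset.sum_congr rfl fun n _ => mul_comm _ _
    · intro n s
      simp only [Finset.mem_powerset, Finset.mem_filter, Finset.subset_iff]
      constructor
      · rintro ⟨hn, hs⟩
        exact ⟨⟨hn, fun p hp => (hs hp).2⟩, fun p hp => (hs hp).1⟩
      · rintro ⟨⟨hn, hs⟩, hs2⟩
        exact ⟨hn, fun p hp => ⟨hs2 hp, hs p hp⟩⟩
  have h5 := xp_expand lev c g t P hlev
  rw [h4, h5, Finset.mul_sum, ← Finset.sum_sub_distrib]
  unfold Er
  calc |∑ s ∈ P.powerset, (C s * As Ω w dv s - Z * ((∏ j ∈ range t,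
        c j (s.filter (fun p => lev p = j)).card) * ∏ p ∈ s, g p))|
      ≤ ∑ s ∈ P.powerset, |C s * As Ω w dv s - Z * ((∏ j ∈ range t,
        c j (s.filter (fun p => lev p = j)).card) * ∏ p ∈ s, g p)| :=
        Finset.abs_sum_le_sum_abs _ _
    _ = ∑ s ∈ P.powerset, |C s| * |As Ω w dv s - Z * ∏ p ∈ s, g p| := by
        refine Finset.sum_congr rfl fun s _ => ?_
        rw [← abs_mul]
        congr 1
        simp only [hC]
        ring
    _ = ∑ s ∈ Sad P lev b t, |C s| * |As Ω w dv s - Z * ∏ p ∈ s, g p| := by
        symm
        apply Finset.sum_subset (Finset.filter_subset _ _)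
        intro s hs hns
        rw [hC0 s hs hns, abs_zero, zero_mul]
    _ ≤ ∑ s ∈ Sad P lev b t, |As Ω w dv s - Z * ∏ p ∈ s, g p| := by
        refine Finset.sum_le_sum fun s _ => ?_
        exact mul_le_of_le_one_left (abs_nonneg _) (hCle s)

end Pool.Agent.H29.BV
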