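import Pool.Agent.H8.BV.Targets
import Pool.Agent.H29.BIG.MUL
import Pool.Agent.H49.VZ.Base

/-!
# Row MUX: the multiplicity of the image of a hypersurface of a variety
-/

set_option autoImplicit false

open MvPolynomial
open Pool.Agent.H12.ZD (pmap)
open Pool.Agent.H18.HIT Pool.Agent.H18.HX Pool.Agent.H18.VZ
open Pool.Agent.H8.BIG (KF line)
open Pool.Agent.H8.BV

namespace Pool.Agent.H29.BV

open Pool.Agent.H29.BIG (coeff_mul_low pencil_sum dvd_eval_zero const_aeval)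

theorem eval_up {k : Type} [Field k] {N : ℕ} (x : Fin (N + 1) → k) (c : Po N k) :
    eval x (up c) = eval (tl x) c := by
  unfold up
  rw [eval_rename]
  rfl

theorem up_add_C {k : Type} [Field k] {N : ℕ} (S L : Po N k) (e : k) :
    up (S + C e * L) = up S + C e * up L := by
  unfold up
  rw [map_add, map_mul, rename_C]

/-- the chain of polynomials of the pencil -/
theorem chain {k : Type} [Field k] [Infinite k] (hLAI : T_LAI) {N r : ℕ} (μ ν : ℕ)
    (P : Po (N + 1) k) (T : Tup (N + 1) k) (S L : Po N k) (Z : Finset k) (hP : Hyp P r)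
    (hPT : P ∣ aeval T P) (hS : S ≠ 0)
    (hpen : ∀ ε : k, ε ∉ Z → ∃ Q G : Po (N + 1) k, ¬ P ∣ Q ∧ Q.totalDegree ≤ μ ∧
      G.totalDegree ≤ ν ∧ P ∣ aeval T Q - up (S + C ε * L) * G) :
    ∃ (J : ℕ) (Qs Gs : ℕ → Po (N + 1) k), ¬ P ∣ Qs 0 ∧ (Qs 0).totalDegree ≤ μ ∧
      P ∣ aeval T (Qs 0) - up S * Gs 0 ∧
      (∀ j, P ∣ aeval T (Qs (j + 1)) - (up S * Gs (j + 1) + up L * Gs j)) ∧ P ∣ Gs J := by
  classical
  obtain ⟨I, hI⟩ : ∃ I : Ideal (Po (N + 1) k), I = Ideal.span {P} := ⟨_, rfl⟩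
  have hmem : ∀ q : Po (N + 1) k, q ∈ I ↔ P ∣ q := fun q => by
    rw [hI, Ideal.mem_span_singleton]
  have hprime : Prime P := hP.irr.prime
  obtain ⟨mk, hmk⟩ : ∃ mk : Po (N + 1) k →ₐ[k] (Po (N + 1) k ⧸ I), mk = Ideal.Quotient.mkₐ k I :=
    ⟨_, rfl⟩
  have hmk0 : ∀ q, mk q = 0 ↔ P ∣ q := fun q => by
    rw [← hmem, hmk]
    exact Ideal.Quotient.eq_zero_iff_mem
  obtain ⟨Ts, hTs⟩ : ∃ Ts : (Po (N + 1) k ⧸ I) →ₐ[k] (Po (N + 1) k ⧸ I),
      ∀ q, Ts (mk q) = mk (aeval T q) := by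
    refine ⟨Ideal.Quotient.liftₐ I (mk.comp (aeval T)) (fun a ha => ?_), fun q => ?_⟩
    · rw [AlgHom.comp_apply, hmk0]
      obtain ⟨c, hc⟩ := (hmem a).1 ha
      rw [hc, map_mul]
      exact Dvd.dvd.mul_right hPT _
    · have h1 : mk q = Ideal.Quotient.mk I q := by
        rw [hmk]
        rfl
      rw [h1]
      rfl
  have hsm : ∀ (e : k) (y : Po (N + 1) k ⧸ I), e • y = mk (C e) * y := by
    intro e y
    obtain ⟨z, rfl⟩ : ∃ z, mk z = y := by
      obtain ⟨z, hz⟩ := Ideal.Quotient.mk_surjective y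
      refine ⟨z, ?_⟩
      rw [hmk]
      exact hz
    have h1 : mk (e • z) = e • mk z := map_smul mk e z
    rw [← h1, smul_eq_C_mul, map_mul]
  have hfin : ∀ t, Module.Finite k (restrictTotalDegree (Fin (N + 1)) k t) := fun t =>
    (Pool.Agent.H99.HIT.pf_RTD (N + 1) k t).1
  obtain ⟨V, hV⟩ : ∃ V : ℕ → Submodule k (Po (N + 1) k ⧸ I), ∀ t,
      V t = (restrictTotalDegree (Fin (N + 1)) k t).map mk.toLinearMap := ⟨_, fun _ => rfl⟩
  have hVfin : ∀ t, Module.Finite k (V t) := fun t => by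
    have h1 := hfin t
    rw [hV t]
    infer_instance
  have hVmem : ∀ t q, q ∈ V t → ∃ Q : Po (N + 1) k, Q.totalDegree ≤ t ∧ mk Q = q := by
    intro t q hq
    rw [hV t] at hq
    obtain ⟨Q, hQ, rfl⟩ := hq
    exact ⟨Q, (mem_restrictTotalDegree _ _ _).1 hQ, rfl⟩
  have hVmk : ∀ t (Q : Po (N + 1) k), Q.totalDegree ≤ t → mk Q ∈ V t := by
    intro t Q hQ
    rw [hV t]
    exact ⟨Q, (mem_restrictTotalDegree _ _ _).2 hQ, rfl⟩
  have h1 := hVfin μ
  have h2 := hVfin ν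
  obtain ⟨A, hA⟩ : ∃ A : (V μ × V ν) →ₗ[k] (Po (N + 1) k ⧸ I), ∀ w, A w =
      Ts (w.1 : Po (N + 1) k ⧸ I) - mk (up S) * (w.2 : Po (N + 1) k ⧸ I) :=
    ⟨Ts.toLinearMap ∘ₗ (V μ).subtype ∘ₗ LinearMap.fst k _ _ -
      LinearMap.mulLeft k (mk (up S)) ∘ₗ (V ν).subtype ∘ₗ LinearMap.snd k _ _, fun _ => rfl⟩
  obtain ⟨B, hB⟩ : ∃ B : (V μ × V ν) →ₗ[k] (Po (N + 1) k ⧸ I), ∀ w, B w =
      -(mk (up L) * (w.2 : Po (N + 1) k ⧸ I)) :=
    ⟨-(LinearMap.mulLeft k (mk (up L)) ∘ₗ (V ν).subtype ∘ₗ LinearMap.snd k _ _), fun _ => rfl⟩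
  obtain ⟨J, w, hw0, hwA, hwB, hwJ⟩ := hLAI k (V μ × V ν) (Po (N + 1) k ⧸ I) A B Z (by
    intro e he
    obtain ⟨Q, G, hQ, hQd, hGd, hdvd⟩ := hpen e he
    refine ⟨(⟨mk Q, hVmk _ _ hQd⟩, ⟨mk G, hVmk _ _ hGd⟩), ?_, ?_⟩
    · intro h
      apply hQ
      rw [← hmk0]
      exact congrArg (fun z : V μ × V ν => (z.1 : Po (N + 1) k ⧸ I)) h
    · rw [hA, hB]
      have h3 := (hmk0 _).2 hdvd
      rw [up_add_C, map_sub, map_mul, map_add, map_mul, ← hTs] at h3
      rw [hsm]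
      linear_combination h3)
  have hex1 : ∀ j, ∃ Q : Po (N + 1) k, Q.totalDegree ≤ μ ∧ mk Q = (w j).1 := fun j =>
    hVmem _ _ (w j).1.2
  have hex2 : ∀ j, ∃ G : Po (N + 1) k, G.totalDegree ≤ ν ∧ mk G = (w j).2 := fun j =>
    hVmem _ _ (w j).2.2
  choose Qs hQs1 hQs2 using hex1
  choose Gs hGs1 hGs2 using hex2
  have hr0 : P ∣ aeval T (Qs 0) - up S * Gs 0 := by
    rw [← hmk0, map_sub, map_mul, ← hTs, hQs2, hGs2]
    have h3 := hwA
    rw [hA] at h3
    exact h3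
  refine ⟨J, Qs, Gs, fun hcon => hw0 ?_, hQs1 0, hr0, fun j => ?_, ?_⟩
  · have h3 : P ∣ aeval T (Qs 0) := by
      obtain ⟨c, hc⟩ := hcon
      rw [hc, map_mul]
      exact Dvd.dvd.mul_right hPT _
    have h4 : P ∣ up S * Gs 0 := by
      have h5 := dvd_sub h3 hr0
      rwa [sub_sub_cancel] at h5
    have h5 : P ∣ Gs 0 := by
      rcases hprime.dvd_or_dvd h4 with h6 | h6
      · exact absurd h6 (Pool.Agent.H49.VZ.not_dvd_up hP hS)
      · exact h6
    have h6 := (hmk0 _).2 hcon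
    have h7 := (hmk0 _).2 h5
    rw [hQs2] at h6
    rw [hGs2] at h7
    exact Prod.ext (Subtype.ext h6) (Subtype.ext h7)
  · rw [← hmk0, map_sub, map_add, map_mul, map_mul, ← hTs, hQs2, hGs2, hGs2]
    have h3 := hwB j
    rw [hA, hB] at h3
    linear_combination h3
  · rw [← hmk0, hGs2, hwJ J le_rfl]
    rfl

theorem pf_MUX (hLAI : T_LAI) : T_MUX := by
  intro N r E μ ν k K _ _ _ _ P T S x γ z hP hPT hgen hz1 hzP hz2 hS hSx hpen
  classical
  have hinj : Function.Injective (algebraMap k K) := (algebraMap k K).injective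
  have hconst : ∀ a (q : Po N k), PowerSeries.constantCoeff (aeval (z a) (up q)) =
      algebraMap k K (eval (tl (x a)) q) := fun a q => by
    rw [const_aeval (z a) (x a) (hz1 a), eval_up]
  have hcomp : ∀ a (q : Po (N + 1) k), aeval (z a) (aeval T q) = aeval γ q := by
    intro a q
    rw [comp_aeval_apply]
    have h1 : (fun i => aeval (z a) (T i)) = γ := funext fun i => hz2 a i
    rw [h1]
  have hzdvd : ∀ a (q : Po (N + 1) k), P ∣ q → aeval (z a) q = 0 := by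
    intro a q hq
    obtain ⟨c, hc⟩ := hq
    rw [hc, map_mul, hzP, zero_mul]
  -- the values of `S` are nonzero
  have hSne : ∀ a, aeval (z a) (up S) ≠ 0 := by
    intro a h
    obtain ⟨L0, Z, -, -, h1⟩ := hpen fun _ _ => 0
    obtain ⟨J, Qs, Gs, hQ0, -, hr0, -, -⟩ := chain hLAI μ ν P T S L0 Z hP hPT hS h1
    apply hQ0
    apply hgen
    rw [← hcomp a]
    have h2 := hzdvd a _ hr0
    rw [map_sub, map_mul, h, zero_mul, sub_zero] at h2
    exact h2
  have hex : ∀ b, ∃ n, PowerSeries.coeff n (aeval (z b) (up S)) ≠ 0 := by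
    intro b
    by_contra hcon
    push Not at hcon
    exact hSne b (PowerSeries.ext fun n => by rw [hcon n, map_zero])
  obtain ⟨n, hn⟩ : ∃ n : Fin E → ℕ, ∀ b, n b = Nat.find (hex b) := ⟨_, fun _ => rfl⟩
  have hn1 : ∀ b, PowerSeries.coeff (n b) (aeval (z b) (up S)) ≠ 0 := fun b => by
    rw [hn]; exact Nat.find_spec (hex b)
  have hn2 : ∀ b m, m < n b → PowerSeries.coeff m (aeval (z b) (up S)) = 0 := fun b m hm => by
    rw [hn] at hm
    exact not_not.1 (Nat.find_min (hex b) hm)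
  obtain ⟨cf, hcf⟩ : ∃ cf : Fin E → Fin E → K, ∀ a b,
      cf a b = PowerSeries.coeff (n b) (aeval (z a) (up S)) := ⟨_, fun _ _ => rfl⟩
  have hρex : ∀ a b, ∃ ρ : k, ∀ r : k, cf a b = algebraMap k K r * cf b b →
      cf a b = algebraMap k K ρ * cf b b := by
    intro a b
    by_cases h : ∃ r : k, cf a b = algebraMap k K r * cf b b
    · obtain ⟨r, hr⟩ := h
      exact ⟨r, fun _ _ => hr⟩
    · exact ⟨0, fun r hr => absurd ⟨r, hr⟩ h⟩
  choose ρ hρ using hρex
  obtain ⟨L, Z, hL1, hL2, hL3⟩ := hpen ρ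
  have hunit : ∀ a, ∃ u : PowerSeries K, aeval (z a) (up L) * u = 1 := by
    intro a
    have h1 : IsUnit (aeval (z a) (up L)) := by
      rw [PowerSeries.isUnit_iff_constantCoeff, hconst]
      exact IsUnit.mk0 _ fun h => hL1 a ((map_eq_zero_iff _ hinj).1 h)
    exact h1.exists_right_inv
  choose ui hui using hunit
  obtain ⟨ε, hε⟩ : ∃ ε : Fin E → PowerSeries K, ∀ a, ε a = -(aeval (z a) (up S) * ui a) :=
    ⟨_, fun _ => rfl⟩
  have hεL : ∀ a, aeval (z a) (up S) = -(ε a * aeval (z a) (up L)) := by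
    intro a
    rw [hε]
    linear_combination (-(aeval (z a) (up S))) * hui a
  have hεX : ∀ a, PowerSeries.X ∣ ε a := by
    intro a
    rw [hε]
    refine Dvd.dvd.neg_right (Dvd.dvd.mul_right ?_ _)
    rw [PowerSeries.X_dvd_iff, hconst, hSx a, map_zero]
  have hεinj : Function.Injective ε := by
    intro a b hab
    by_contra hne
    have h1 : aeval (z a) (up S) * aeval (z b) (up L) =
        aeval (z b) (up S) * aeval (z a) (up L) := by
      rw [hεL a, hεL b, hab]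
      ring
    have h2 : ∀ m, m < n b → PowerSeries.coeff m (aeval (z a) (up S)) = 0 := by
      intro m
      induction m using Nat.strong_induction_on with
      | _ m ih =>
        intro hm
        have h3 := congrArg (PowerSeries.coeff m) h1
        rw [coeff_mul_low _ _ m fun j hj => ih j hj (hj.trans hm),
          coeff_mul_low _ _ m fun j hj => hn2 b j (hj.trans hm), hn2 b m hm, zero_mul,
          hconst] at h3
        rcases mul_eq_zero.1 h3 with h4 | h4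
        · exact h4
        · exact absurd ((map_eq_zero_iff _ hinj).1 h4) (hL1 b)
    have h3 := congrArg (PowerSeries.coeff (n b)) h1
    rw [coeff_mul_low _ _ _ h2, coeff_mul_low _ _ _ (hn2 b), hconst, hconst, ← hcf, ← hcf] at h3
    have hLb : algebraMap k K (eval (tl (x b)) L) ≠ 0 := fun h =>
      hL1 b ((map_eq_zero_iff _ hinj).1 h)
    have h4 : cf a b = algebraMap k K (eval (tl (x a)) L / eval (tl (x b)) L) * cf b b := by
      rw [map_div₀, div_mul_eq_mul_div, eq_div_iff hLb, h3, mul_comm]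
    have h5 := hρ a b _ h4
    rw [h4] at h5
    have hcb : cf b b ≠ 0 := by
      rw [hcf]
      exact hn1 b
    have h6 := hinj (mul_right_cancel₀ hcb h5)
    apply hL2 a b hne
    rw [← h6, div_mul_cancel₀ _ (hL1 b)]
  -- the pencil
  obtain ⟨J, Qs, Gs, hQ0, hQ0d, hr0, hr1, hGJ⟩ := chain hLAI μ ν P T S L Z hP hPT hS hL3
  refine ⟨Qs 0, hQ0, hQ0d, ?_⟩
  obtain ⟨QQ, hQQ⟩ : ∃ QQ : Polynomial (PowerSeries K), QQ =
      ∑ j ∈ Finset.range (J + 1), Polynomial.C (aeval γ (Qs j)) * Polynomial.X ^ j :=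
    ⟨_, rfl⟩
  have hroot : ∀ a, QQ.eval (ε a) = 0 := by
    intro a
    have h1 : QQ.eval (ε a) = ∑ j ∈ Finset.range (J + 1),
        aeval (z a) (aeval T (Qs j)) * ε a ^ j := by
      rw [hQQ, Polynomial.eval_finsetSum]
      refine Finset.sum_congr rfl fun j _ => ?_
      rw [Polynomial.eval_mul, Polynomial.eval_C, Polynomial.eval_pow, Polynomial.eval_X, hcomp]
    have h2 := hzdvd a _ hr0
    rw [map_sub, map_mul, sub_eq_zero] at h2
    have h3 : ∀ j, aeval (z a) (aeval T (Qs (j + 1))) =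
        aeval (z a) (up S) * aeval (z a) (Gs (j + 1)) + aeval (z a) (up L) * aeval (z a) (Gs j) :=
      fun j => by
        have h4 := hzdvd a _ (hr1 j)
        rw [map_sub, map_add, map_mul, map_mul, sub_eq_zero] at h4
        exact h4
    rw [h1, pencil_sum (aeval (z a) (up S)) (aeval (z a) (up L)) (ε a)
      (fun j => aeval (z a) (aeval T (Qs j))) (fun j => aeval (z a) (Gs j)) (hεL a)
      h2 h3 J, hzdvd a _ hGJ, mul_zero, zero_mul]
  have hfinal := dvd_eval_zero ε hεinj hεX QQ hroot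
  have h0 : QQ.eval 0 = aeval γ (Qs 0) := by
    rw [hQQ, Polynomial.eval_finsetSum, Finset.sum_range_succ']
    rw [Finset.sum_eq_zero]
    · rw [zero_add, pow_zero, mul_one, Polynomial.eval_C]
    · intro j _
      rw [Polynomial.eval_mul, Polynomial.eval_pow, Polynomial.eval_X, zero_pow (Nat.succ_ne_zero j),
        mul_zero]
  rw [h0] at hfinal
  exact hfinal

end Pool.Agent.H29.BV
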