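import Pool.Agent.H30.BV.Targets

/-!
Module RH of the board bv_modules: counting in residue classes.
-/

set_option autoImplicit false

open Finset Real ArithmeticFunction
open scoped Nat

namespace Pool.Agent.H29.BV

open Pool.Agent.H30.BV
open Pool.Agent.H30.PF (S8)

/-- the number of `x < N` with `P x` -/
noncomputable def cnt (P : ℕ → Prop) (N : ℕ) : ℕ :=
  open Classical in ((range N).filter P).card

theorem cnt_eq (P : ℕ → Prop) [DecidablePred P] (N : ℕ) :
    ((range N).filter P).card = cnt P N := by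
  unfold cnt
  congr

theorem cnt_mono (P : ℕ → Prop) {a b : ℕ} (h : a ≤ b) : cnt P a ≤ cnt P b := by
  classical
  unfold cnt
  apply Finset.card_le_card
  intro x hx
  simp only [Finset.mem_filter, Finset.mem_range] at hx ⊢
  exact ⟨by omega, hx.2⟩

theorem cnt_add (P : ℕ → Prop) (D : ℕ) (hP : ∀ x, P (x + D) ↔ P x) (b : ℕ) :
    cnt P (b + D) = cnt P D + cnt P b := by
  classical
  unfold cnt
  have h1 : (range (b + D)).filter P = (range D).filter P ∪
      ((range b).filter P).map (addRightEmbedding D) := by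
    ext x
    simp only [Finset.mem_filter, Finset.mem_range, Finset.mem_union, Finset.mem_map,
      addRightEmbedding_apply]
    constructor
    · rintro ⟨hx, hPx⟩
      rcases lt_or_ge x D with h | h
      · exact Or.inl ⟨h, hPx⟩
      · right
        refine ⟨x - D, ⟨by omega, ?_⟩, by omega⟩
        rw [← hP]
        rwa [Nat.sub_add_cancel h]
    · rintro (⟨hx, hPx⟩ | ⟨y, ⟨hy, hPy⟩, rfl⟩)
      · exact ⟨by omega, hPx⟩
      · exact ⟨by omega, (hP y).2 hPy⟩
  rw [h1, Finset.card_union_of_disjoint, Finset.card_map]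
  rw [Finset.disjoint_left]
  intro x hx hx2
  simp only [Finset.mem_filter, Finset.mem_range, Finset.mem_map,
    addRightEmbedding_apply] at hx hx2
  obtain ⟨y, -, rfl⟩ := hx2
  omega

theorem cnt_mul (P : ℕ → Prop) (D : ℕ) (hP : ∀ x, P (x + D) ↔ P x) (q r : ℕ) :
    cnt P (r + D * q) = q * cnt P D + cnt P r := by
  induction q with
  | zero => simp
  | succ q ih =>
    have : r + D * (q + 1) = (r + D * q) + D := by ring
    rw [this, cnt_add P D hP, ih]
    ring

/-- counting a periodic property -/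
theorem cnt_per (P : ℕ → Prop) (D : ℕ) (hD : 0 < D) (hP : ∀ x, P (x + D) ↔ P x) (M : ℕ) :
    |(cnt P M : ℝ) - M * ((cnt P D : ℝ) / D)| ≤ cnt P D := by
  have h1 := cnt_mul P D hP (M / D) (M % D)
  rw [Nat.mod_add_div] at h1
  have hDR : (0 : ℝ) < D := by exact_mod_cast hD
  have h2 : cnt P (M % D) ≤ cnt P D := cnt_mono P (Nat.mod_lt M hD).le
  have h3 : (M : ℝ) = (M % D : ℕ) + D * (M / D : ℕ) := by exact_mod_cast (Nat.mod_add_div M D).symm
  have h4 : (cnt P M : ℝ) = (M / D : ℕ) * cnt P D + cnt P (M % D) := by exact_mod_cast h1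
  have h5 : (cnt P M : ℝ) - M * ((cnt P D : ℝ) / D) =
      cnt P (M % D) - (M % D : ℕ) * ((cnt P D : ℝ) / D) := by
    rw [h4]
    conv_lhs => rw [h3]
    field_simp
    ring
  rw [h5, abs_le]
  have h6 : (0 : ℝ) ≤ (M % D : ℕ) * ((cnt P D : ℝ) / D) := by positivity
  have h7 : ((M % D : ℕ) : ℝ) * ((cnt P D : ℝ) / D) ≤ cnt P D := by
    have : ((M % D : ℕ) : ℝ) ≤ D := by exact_mod_cast (Nat.mod_lt M hD).le
    calc ((M % D : ℕ) : ℝ) * ((cnt P D : ℝ) / D) ≤ D * ((cnt P D : ℝ) / D) := by gcongr
      _ = cnt P D := by field_simp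
  have h8 : (cnt P (M % D) : ℝ) ≤ cnt P D := by exact_mod_cast h2
  have h9 : (0 : ℝ) ≤ cnt P (M % D) := by positivity
  constructor <;> linarith

/-- Chinese remainder theorem -/
theorem cnt_crt (A B C : ℕ → Prop) (hC : ∀ x, C x ↔ A x ∧ B x) (p D : ℕ) (hp : 0 < p)
    (hD : 0 < D) (hcop : Nat.Coprime p D)
    (hA : ∀ x, A (x + p) ↔ A x) (hB : ∀ x, B (x + D) ↔ B x) :
    cnt C (p * D) = cnt A p * cnt B D := by
  classical
  have hA' : ∀ x q, A (x + p * q) ↔ A x := by
    intro x q
    induction q with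
    | zero => simp
    | succ q ih =>
      have : x + p * (q + 1) = (x + p * q) + p := by ring
      rw [this, hA, ih]
  have hB' : ∀ x q, B (x + D * q) ↔ B x := by
    intro x q
    induction q with
    | zero => simp
    | succ q ih =>
      have : x + D * (q + 1) = (x + D * q) + D := by ring
      rw [this, hB, ih]
  have hAm : ∀ x, A (x % p) ↔ A x := by
    intro x
    rw [← hA' (x % p) (x / p), Nat.mod_add_div]
  have hBm : ∀ x, B (x % D) ↔ B x := by
    intro x
    rw [← hB' (x % D) (x / D), Nat.mod_add_div]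
  unfold cnt
  rw [← Finset.card_product]
  refine Finset.card_nbij' (fun x => (x % p, x % D))
    (fun y => (Nat.chineseRemainder hcop y.1 y.2 : ℕ)) ?_ ?_ ?_ ?_
  · intro x hx
    have hx' := (Finset.mem_filter.1 hx)
    have hx2 := (hC x).1 hx'.2
    simp only [Finset.coe_product, Set.mem_prod, Finset.mem_coe, Finset.mem_filter,
      Finset.mem_range]
    exact ⟨⟨Nat.mod_lt _ hp, (hAm x).2 hx2.1⟩, ⟨Nat.mod_lt _ hD, (hBm x).2 hx2.2⟩⟩
  · rintro ⟨a, b⟩ hab
    simp only [Finset.coe_product, Set.mem_prod, Finset.mem_coe, Finset.mem_filter,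
      Finset.mem_range] at hab
    simp only [Finset.mem_coe, Finset.mem_filter, Finset.mem_range]
    have h1 := (Nat.chineseRemainder hcop a b).2
    refine ⟨Nat.chineseRemainder_lt_mul hcop a b hp.ne' hD.ne', (hC _).2 ⟨?_, ?_⟩⟩
    · rw [← hAm, h1.1, hAm]
      exact hab.1.2
    · rw [← hBm, h1.2, hBm]
      exact hab.2.2
  · intro x hx
    have hx' := Finset.mem_filter.1 hx
    have hlt := Finset.mem_range.1 hx'.1
    simp only
    have h1 := (Nat.chineseRemainder hcop (x % p) (x % D)).2
    have h2 : (Nat.chineseRemainder hcop (x % p) (x % D) : ℕ) ≡ x [MOD p * D] := by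
      rw [← Nat.modEq_and_modEq_iff_modEq_mul hcop]
      exact ⟨h1.1.trans (Nat.mod_modEq _ _), h1.2.trans (Nat.mod_modEq _ _)⟩
    exact Nat.ModEq.eq_of_lt_of_lt h2
      (Nat.chineseRemainder_lt_mul hcop _ _ hp.ne' hD.ne') hlt
  · rintro ⟨a, b⟩ hab
    simp only [Finset.coe_product, Set.mem_prod, Finset.mem_coe, Finset.mem_filter,
      Finset.mem_range] at hab
    have h1 := (Nat.chineseRemainder hcop a b).2
    simp only [Prod.mk.injEq]
    constructor
    · have := h1.1
      unfold Nat.ModEq at this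
      rw [this, Nat.mod_eq_of_lt hab.1.1]
    · have := h1.2
      unfold Nat.ModEq at this
      rw [this, Nat.mod_eq_of_lt hab.2.1]

/-- the condition modulo `p` -/
def cond (p₁ r p m : ℕ) : Prop :=
  (p : ℤ) ∣ ((p₁ * m + r : ℕ) : ℤ) * (((p₁ * m + r : ℕ) : ℤ) ^ 2 - 2)

theorem cond_zmod (p₁ r p m : ℕ) :
    cond p₁ r p m ↔ ((p₁ : ZMod p) * m + r) * (((p₁ : ZMod p) * m + r) ^ 2 - 2) = 0 := by
  unfold cond
  rw [← ZMod.intCast_zmod_eq_zero_iff_dvd]
  push_cast
  rfl

theorem cond_per (p₁ r p : ℕ) (x : ℕ) : cond p₁ r p (x + p) ↔ cond p₁ r p x := by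
  rw [cond_zmod, cond_zmod]
  push_cast
  rw [ZMod.natCast_self, add_zero]

/-- number of the roots -/
theorem cond_roots (p : ℕ) [Fact p.Prime] (hp3 : 3 ≤ p) :
    (univ.filter (fun y : ZMod p => y * (y ^ 2 - 2) = 0)).card = if S8 p then 3 else 1 := by
  have hp2 : p ≠ 2 := by omega
  have h2 : (2 : ZMod p) ≠ 0 := by
    intro h
    have : ((2 : ℕ) : ZMod p) = 0 := by exact_mod_cast h
    rw [ZMod.natCast_eq_zero_iff] at this
    have := Nat.le_of_dvd (by norm_num) this
    omega
  split_ifs with h8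
  · obtain ⟨a, ha⟩ := (ZMod.exists_sq_eq_two_iff hp2).2 h8
    have ha0 : a ≠ 0 := by
      intro h
      rw [h] at ha
      simp at ha
      exact h2 ha
    have hna : a ≠ -a := by
      intro h
      have : 2 * a = 0 := by linear_combination h
      rcases mul_eq_zero.1 this with h | h
      · exact h2 h
      · exact ha0 h
    have hset : univ.filter (fun y : ZMod p => y * (y ^ 2 - 2) = 0) = {0, a, -a} := by
      ext y
      simp only [Finset.mem_filter, Finset.mem_univ, true_and, Finset.mem_insert,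
        Finset.mem_singleton, mul_eq_zero]
      constructor
      · rintro (h | h)
        · exact Or.inl h
        · have : (y - a) * (y + a) = 0 := by
            have : y ^ 2 = a * a := by
              rw [← ha]
              exact sub_eq_zero.1 h
            ring_nf
            rw [this]
            ring
          rcases mul_eq_zero.1 this with h | h
          · exact Or.inr (Or.inl (sub_eq_zero.1 h))
          · exact Or.inr (Or.inr (eq_neg_of_add_eq_zero_left h))
      · rintro (h | h | h)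
        · exact Or.inl h
        · right
          rw [h, ha]
          ring
        · right
          rw [h, ha]
          ring
    rw [hset, Finset.card_insert_of_notMem, Finset.card_insert_of_notMem, Finset.card_singleton]
    · simpa using hna
    · simp only [Finset.mem_insert, Finset.mem_singleton, not_or]
      exact ⟨ha0.symm, fun h => ha0 (neg_eq_zero.1 h.symm)⟩
  · have hset : univ.filter (fun y : ZMod p => y * (y ^ 2 - 2) = 0) = {0} := by
      ext y
      simp only [Finset.mem_filter, Finset.mem_univ, true_and,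
        Finset.mem_singleton, mul_eq_zero]
      constructor
      · rintro (h | h)
        · exact h
        · exfalso
          apply h8
          exact (ZMod.exists_sq_eq_two_iff hp2).1 ⟨y, by rw [← pow_two]; exact (sub_eq_zero.1 h).symm⟩
      · exact fun h => Or.inl h
    rw [hset, Finset.card_singleton]

theorem cond_cnt (p₁ r p : ℕ) (hp₁ : p₁.Prime) (hp : p.Prime) (hp3 : 3 ≤ p) (hne : p ≠ p₁) :
    cnt (cond p₁ r p) p = if S8 p then 3 else 1 := by
  classical
  have : Fact p.Prime := ⟨hp⟩
  rw [← cond_roots p hp3]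
  have hu : (p₁ : ZMod p) ≠ 0 := by
    intro h
    rw [ZMod.natCast_eq_zero_iff] at h
    exact hne ((Nat.prime_dvd_prime_iff_eq hp hp₁).1 h)
  unfold cnt
  refine Finset.card_bij (fun m _ => (p₁ : ZMod p) * m + r) ?_ ?_ ?_
  · intro m hm
    have := (Finset.mem_filter.1 hm).2
    rw [cond_zmod] at this
    simpa using this
  · intro a ha b hb hab
    have ha' := Finset.mem_range.1 (Finset.mem_filter.1 ha).1
    have hb' := Finset.mem_range.1 (Finset.mem_filter.1 hb).1
    have h1 : (a : ZMod p) = b := by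
      have : (p₁ : ZMod p) * a = p₁ * b := by
        exact add_right_cancel hab
      exact mul_left_cancel₀ hu this
    rw [ZMod.natCast_eq_natCast_iff] at h1
    exact Nat.ModEq.eq_of_lt_of_lt h1 ha' hb'
  · intro y hy
    simp only [Finset.mem_filter, Finset.mem_univ, true_and] at hy
    have h1 : (p₁ : ZMod p) * (((((p₁ : ZMod p)⁻¹ * (y - r)).val : ℕ)) : ZMod p) + r = y := by
      rw [ZMod.natCast_val, ZMod.cast_id, mul_inv_cancel_left₀ hu]
      ring
    refine ⟨((p₁ : ZMod p)⁻¹ * (y - r)).val, ?_, h1⟩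
    refine Finset.mem_filter.2 ⟨Finset.mem_range.2 (ZMod.val_lt _), ?_⟩
    rw [cond_zmod, h1]
    exact hy

theorem rh : T_RH := by
  intro p₁ r M s hp₁ hs
  -- the number of good residues
  have key : ∀ s : Finset ℕ, (∀ p ∈ s, p.Prime ∧ 3 ≤ p ∧ p ≠ p₁) →
      (∀ x, (∀ p ∈ s, cond p₁ r p (x + ∏ p ∈ s, p)) ↔ ∀ p ∈ s, cond p₁ r p x) ∧
      cnt (fun x => ∀ p ∈ s, cond p₁ r p x) (∏ p ∈ s, p) =
        ∏ p ∈ s, (if S8 p then 3 else 1) := by
    intro s
    induction s using Finset.induction_on with
    | empty =>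
      intro _
      refine ⟨by simp, ?_⟩
      simp [cnt]
    | insert p s hps ih =>
      intro h
      have hp := h p (Finset.mem_insert_self _ _)
      obtain ⟨ih1, ih2⟩ := ih (fun q hq => h q (Finset.mem_insert_of_mem hq))
      have hmul : ∀ (q D x : ℕ), q ∣ D → (cond p₁ r q (x + D) ↔ cond p₁ r q x) := by
        rintro q _ x ⟨k, rfl⟩
        induction k with
        | zero => simp
        | succ k ihk =>
          have : x + q * (k + 1) = (x + q * k) + q := by ring
          rw [this, cond_per, ihk]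
      refine ⟨?_, ?_⟩
      · intro x
        refine forall₂_congr fun q hq => ?_
        exact hmul q _ x (Finset.dvd_prod_of_mem _ hq)
      · rw [Finset.prod_insert hps, Finset.prod_insert hps, ← ih2,
          ← cond_cnt p₁ r p hp₁ hp.1 hp.2.1 hp.2.2]
        apply cnt_crt (cond p₁ r p) (fun x => ∀ q ∈ s, cond p₁ r q x)
        · intro x
          rw [Finset.forall_mem_insert]
        · exact hp.1.pos
        · exact Finset.prod_pos fun q hq => (h q (Finset.mem_insert_of_mem hq)).1.pos
        · apply Nat.Coprime.prod_right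
          intro q hq
          rw [Nat.coprime_primes hp.1 (h q (Finset.mem_insert_of_mem hq)).1]
          rintro rfl
          exact hps hq
        · exact cond_per p₁ r p
        · exact ih1
  obtain ⟨k1, k2⟩ := key s hs
  have hD : 0 < ∏ p ∈ s, p := Finset.prod_pos fun q hq => (hs q hq).1.pos
  have h1 := cnt_per (fun x => ∀ p ∈ s, cond p₁ r p x) (∏ p ∈ s, p) hD k1 M
  have h2 : cnt (fun m : ℕ => ∀ p ∈ s, (p : ℤ) ∣
      ((p₁ * m + r : ℕ) : ℤ) * (((p₁ * m + r : ℕ) : ℤ) ^ 2 - 2)) M =
      cnt (fun x => ∀ p ∈ s, cond p₁ r p x) M := rfl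
  rw [cnt_eq, h2]
  have h3 : (cnt (fun x => ∀ p ∈ s, cond p₁ r p x) (∏ p ∈ s, p) : ℝ) / ((∏ p ∈ s, p : ℕ) : ℝ) =
      ∏ p ∈ s, gr p := by
    rw [k2]
    push_cast
    rw [← Finset.prod_div_distrib]
    refine Finset.prod_congr rfl fun p _ => ?_
    unfold gr
    split_ifs <;> rfl
  rw [h3] at h1
  refine h1.trans ?_
  rw [k2]
  push_cast
  calc ∏ p ∈ s, (if S8 p then (3 : ℝ) else 1) ≤ ∏ p ∈ s, (3 : ℝ) := by
        refine Finset.prod_le_prod (fun p _ => ?_) (fun p _ => ?_)
        · split_ifs <;> norm_num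
        · split_ifs <;> norm_num
    _ = 3 ^ s.card := by rw [Finset.prod_const]

end Pool.Agent.H29.BV
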